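import Pool.Agent.Y119.HG.Defs

set_option autoImplicit false

open Matrix

namespace Pool.Agent.Y986.HG

open Pool.Agent.Y119.HG

/-- a linear functional which vanishes on all squares `u uᵀ` vanishes on the symmetric matrices -/
theorem sym_vanish {n L : Type} [Fintype n] [DecidableEq n] [Field L] [CharZero L] (ψ : Matrix n n L →ₗ[L] L)
    (h : ∀ u : n → L, ψ (vecMulVec u u) = 0) (A : Matrix n n L) (hA : Aᵀ = A) : ψ A = 0 := by
  have hpol : ∀ u v : n → L, ψ (vecMulVec u v) + ψ (vecMulVec v u) = 0 := by
    intro u v
    have h1 := h (u + v)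
    rw [add_vecMulVec, vecMulVec_add, vecMulVec_add, map_add, map_add, map_add, h u, h v] at h1
    simpa using h1
  have hE : ∀ i j : n, ψ (Matrix.single i j (1 : L)) + ψ (Matrix.single j i (1 : L)) = 0 := by
    intro i j
    have h1 := hpol (Pi.single i 1) (Pi.single j 1)
    have e1 : ∀ a b : n, vecMulVec (Pi.single a (1 : L)) (Pi.single b (1 : L)) = Matrix.single a b (1 : L) := by
      intro a b
      ext x y
      rw [vecMulVec_apply, Matrix.single_apply]
      by_cases hx : a = x
      · by_cases hy : b = y
        · subst hx; subst hy; simp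
        · have : (Pi.single b (1 : L) : n → L) y = 0 := Pi.single_eq_of_ne (Ne.symm hy) _
          rw [this, mul_zero, if_neg (fun h => hy h.2)]
      · have : (Pi.single a (1 : L) : n → L) x = 0 := Pi.single_eq_of_ne (Ne.symm hx) _
        rw [this, zero_mul, if_neg (fun h => hx h.1)]
    rw [e1, e1] at h1
    exact h1
  have hdec : ∀ B : Matrix n n L, ψ B = ∑ i, ∑ j, B i j * ψ (Matrix.single i j (1 : L)) := by
    intro B
    conv_lhs => rw [matrix_eq_sum_single B]
    rw [map_sum]
    refine Finset.sum_congr rfl fun i _ => ?_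
    rw [map_sum]
    refine Finset.sum_congr rfl fun j _ => ?_
    have : Matrix.single i j (B i j) = B i j • Matrix.single i j (1 : L) := by
      rw [Matrix.smul_single, smul_eq_mul, mul_one]
    rw [this, map_smul, smul_eq_mul]
  have h2 : ψ A + ψ A = 0 := by
    have e1 : ψ A = ∑ i, ∑ j, A i j * ψ (Matrix.single j i (1 : L)) := by
      rw [hdec A, Finset.sum_comm]
      refine Finset.sum_congr rfl fun i _ => Finset.sum_congr rfl fun j _ => ?_
      have : A j i = A i j := by
        have := congrFun (congrFun hA i) j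
        rwa [transpose_apply] at this
      rw [this]
    calc ψ A + ψ A = ∑ i, ∑ j, A i j * ψ (Matrix.single i j (1 : L)) + ∑ i, ∑ j, A i j * ψ (Matrix.single j i (1 : L)) := by
          rw [← hdec A, ← e1]
      _ = ∑ i, ∑ j, A i j * (ψ (Matrix.single i j (1 : L)) + ψ (Matrix.single j i (1 : L))) := by
          simp only [← Finset.sum_add_distrib, mul_add]
      _ = 0 := by simp [hE]
  have h3 : (2 : L) * ψ A = 0 := by rw [two_mul]; exact h2
  rcases mul_eq_zero.mp h3 with h4 | h4
  · exact absurd h4 two_ne_zero
  · exact h4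

/-- the chain rule for polynomials along a curve -/
theorem chain {k L ι : Type} [Field k] [Field L] [Algebra k L] [Fintype ι] [DecidableEq ι] (f : ι → Polynomial L)
    (P : MvPolynomial ι k) : Polynomial.derivative (MvPolynomial.aeval f P) =
      ∑ i, MvPolynomial.aeval f (MvPolynomial.pderiv i P) * Polynomial.derivative (f i) := by
  induction P using MvPolynomial.induction_on with
  | C a =>
    rw [MvPolynomial.aeval_C]
    have : (algebraMap k (Polynomial L)) a = Polynomial.C (algebraMap k L a) := rfl
    rw [this, Polynomial.derivative_C]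
    simp
  | add p q hp hq =>
    simp only [map_add, hp, hq, add_mul, Finset.sum_add_distrib]
  | mul_X p n hp =>
    rw [map_mul, MvPolynomial.aeval_X, Polynomial.derivative_mul, hp, Finset.sum_mul]
    have e : ∀ i, MvPolynomial.aeval f (MvPolynomial.pderiv i (p * MvPolynomial.X n)) * Polynomial.derivative (f i) =
        MvPolynomial.aeval f (MvPolynomial.pderiv i p) * Polynomial.derivative (f i) * f n +
          (if i = n then MvPolynomial.aeval f p * Polynomial.derivative (f n) else 0) := by
      intro i
      rw [Derivation.leibniz, MvPolynomial.pderiv_X, smul_eq_mul, smul_eq_mul, map_add, map_mul, map_mul,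
        MvPolynomial.aeval_X]
      by_cases hi : i = n
      · subst hi
        rw [Pi.single_eq_same, map_one, if_pos rfl]; ring
      · rw [Pi.single_eq_of_ne (Ne.symm hi), map_zero, if_neg hi]; ring
    rw [Finset.sum_congr rfl fun i _ => e i, Finset.sum_add_distrib, Finset.sum_ite_eq' Finset.univ n]
    simp

/-- vanishing along a line gives a vanishing directional derivative -/
theorem line {k L ι : Type} [Field k] [Field L] [Algebra k L] [CharZero L] [Fintype ι] [DecidableEq ι] (a b : ι → L)
    (P : MvPolynomial ι k) (h : ∀ s : L, MvPolynomial.aeval (fun i => a i + s * b i) P = 0) :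
    ∑ i, MvPolynomial.aeval a (MvPolynomial.pderiv i P) * b i = 0 := by
  set f : ι → Polynomial L := fun i => Polynomial.C (a i) + Polynomial.X * Polynomial.C (b i) with hf
  have hev : ∀ (Q : MvPolynomial ι k) (s : L), Polynomial.eval s (MvPolynomial.aeval f Q) =
      MvPolynomial.aeval (fun i => a i + s * b i) Q := by
    intro Q s
    induction Q using MvPolynomial.induction_on with
    | C c =>
      rw [MvPolynomial.aeval_C, MvPolynomial.aeval_C]
      have : (algebraMap k (Polynomial L)) c = Polynomial.C (algebraMap k L c) := rfl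
      rw [this, Polynomial.eval_C]
    | add p q hp hq => rw [map_add, Polynomial.eval_add, hp, hq, map_add]
    | mul_X p n hp =>
      rw [map_mul, Polynomial.eval_mul, hp, map_mul, MvPolynomial.aeval_X, MvPolynomial.aeval_X]
      congr 1
      rw [hf]
      simp only [Polynomial.eval_add, Polynomial.eval_C, Polynomial.eval_mul, Polynomial.eval_X]
  have h0 : MvPolynomial.aeval f P = 0 := by
    refine Polynomial.funext fun s => ?_
    rw [hev, h s, Polynomial.eval_zero]
  have h1 := chain f P
  rw [h0, Polynomial.derivative_zero] at h1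
  have h2 := congrArg (Polynomial.eval (0 : L)) h1
  rw [Polynomial.eval_zero, Polynomial.eval_finsetSum] at h2
  rw [h2]
  refine Finset.sum_congr rfl fun i _ => ?_
  rw [Polynomial.eval_mul, hev]
  have e1 : (fun i => a i + (0 : L) * b i) = a := by funext i; ring
  have e2 : Polynomial.eval 0 (Polynomial.derivative (f i)) = b i := by
    rw [hf]; simp
  rw [e1, e2]

theorem Om_mul_Om (m : ℕ) (L : Type) [Field L] : Om m L * Om m L = -1 := by
  rw [Om, fromBlocks_multiply]
  simp only [mul_one, mul_zero, zero_add, add_zero, mul_neg, neg_zero]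
  rw [← fromBlocks_one, fromBlocks_neg]
  simp

theorem Om_transpose (m : ℕ) (L : Type) [Field L] : (Om m L)ᵀ = -Om m L := by
  rw [Om, fromBlocks_transpose, fromBlocks_neg]
  simp

/-- `u Ω uᵀ = 0` in matrix form -/
theorem rank_one_zero (m : ℕ) (L : Type) [Field L] [CharZero L] (u : S m → L) :
    vecMulVec u u * Om m L * vecMulVec u u = 0 := by
  have h0 : u ⬝ᵥ (Om m L *ᵥ u) = 0 := by
    have h1 : u ⬝ᵥ (Om m L *ᵥ u) = -(u ⬝ᵥ (Om m L *ᵥ u)) := by
      conv_lhs => rw [dotProduct_mulVec, ← mulVec_transpose, Om_transpose, neg_mulVec, neg_dotProduct, dotProduct_comm]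
    have h2 : (2 : L) * (u ⬝ᵥ (Om m L *ᵥ u)) = 0 := by linear_combination h1
    rcases mul_eq_zero.mp h2 with h3 | h3
    · exact absurd h3 two_ne_zero
    · exact h3
  rw [Matrix.mul_assoc, Matrix.mul_vecMulVec, vecMulVec_mul_vecMulVec]
  rw [h0]
  simp

theorem t_TAN : T_TAN := by
  intro k L _ _ _ _ m G hG hP P hPG X Z hZ
  classical
  -- the linear functional
  set φ : Matrix (S m) (S m) L →ₗ[L] L :=
    { toFun := fun A => ∑ i : S m × S m, MvPolynomial.aeval (fun x : S m × S m => G x.1 x.2) (MvPolynomial.pderiv i P) *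
        (A * Om m L * G) i.1 i.2
      map_add' := fun A B => by
        simp only [Matrix.add_mul, Matrix.add_apply, mul_add, Finset.sum_add_distrib]
      map_smul' := fun c A => by
        simp only [Matrix.smul_mul, Matrix.smul_apply, smul_eq_mul, RingHom.id_apply, Finset.mul_sum]
        exact Finset.sum_congr rfl fun i _ => by ring } with hφ
  have hφa : ∀ A, φ A = ∑ i : S m × S m, MvPolynomial.aeval (fun x : S m × S m => G x.1 x.2) (MvPolynomial.pderiv i P) *
        (A * Om m L * G) i.1 i.2 := fun A => rfl
  have h1 : ∀ u : S m → L, φ (vecMulVec u u) = 0 := by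
    intro u
    rw [hφa]
    refine line (fun x : S m × S m => G x.1 x.2) (fun x : S m × S m => (vecMulVec u u * Om m L * G) x.1 x.2) P fun s => ?_
    have hg := hP P hPG (G + s • (vecMulVec u u * Om m L * G)) ?_
    · exact hg
    · set U := vecMulVec u u with hU
      have hUt : Uᵀ = U := by rw [hU, transpose_vecMulVec]
      have e1 : G + s • (U * Om m L * G) = (1 + s • (U * Om m L)) * G := by
        rw [Matrix.add_mul, Matrix.one_mul, Matrix.smul_mul]
      rw [e1, transpose_mul]
      have e2 : (1 + s • (U * Om m L)) * G * Om m L * (Gᵀ * (1 + s • (U * Om m L))ᵀ) =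
          (1 + s • (U * Om m L)) * (G * Om m L * Gᵀ) * (1 + s • (U * Om m L))ᵀ := by
        simp only [Matrix.mul_assoc]
      rw [e2, hG, transpose_add, transpose_one, transpose_smul, transpose_mul, hUt, Om_transpose]
      have e3 : U * Om m L * Om m L = -U := by rw [Matrix.mul_assoc, Om_mul_Om, Matrix.mul_neg, Matrix.mul_one]
      have e4 : Om m L * (Om m L * U) = -U := by
        rw [← Matrix.mul_assoc, Om_mul_Om, Matrix.neg_mul, Matrix.one_mul]
      have e5 : U * (Om m L * U) = 0 := by rw [← Matrix.mul_assoc, hU]; exact rank_one_zero m L u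
      have e6 : (1 + s • (U * Om m L)) * Om m L = Om m L - s • U := by
        rw [Matrix.add_mul, Matrix.one_mul, Matrix.smul_mul, e3, smul_neg, sub_eq_add_neg]
      rw [e6, Matrix.mul_add, Matrix.mul_one, Matrix.neg_mul, Matrix.sub_mul, Matrix.mul_smul, Matrix.mul_neg, e4, Matrix.mul_smul, Matrix.mul_neg,
        Matrix.smul_mul, e5]
      simp
  have h2 := sym_vanish φ h1 (-(Ysp X Z * Om m L)) (by
    rw [transpose_neg, Ysp, Om, fromBlocks_multiply, fromBlocks_transpose]
    simp [hZ])
  rw [hφa] at h2
  have e7 : -(Ysp X Z * Om m L) * Om m L * G = Ysp X Z * G := by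
    rw [Matrix.neg_mul, Matrix.mul_assoc (Ysp X Z), Om_mul_Om, Matrix.mul_neg, Matrix.mul_one, neg_neg]
  rw [e7] at h2
  exact h2

end Pool.Agent.Y986.HG
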